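import Mathlib
import Pool.Agent.H447R2.MZ.Alg

set_option autoImplicit false

namespace Pool.Agent.Results.MP_f3dc73_nt.BoundedStructure

open Filter

/-- The `ℚ`-span of the multiple zeta values of weight `n`, written with decreasing summation
variables (the first exponent is at least two). -/
noncomputable def Z (n : ℕ) : Submodule ℚ ℝ :=
  Submodule.span ℚ
    {x : ℝ | ∃ t : ℕ, ∃ k : Fin t → ℕ,
      (∀ i, 1 ≤ k i) ∧ (∀ h : 0 < t, 2 ≤ k ⟨0, h⟩) ∧ (∑ i, k i) = n ∧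
      x = ∑' m : {m : Fin t → ℕ // StrictAnti m ∧ ∀ i, 1 ≤ m i},
            ∏ i, (((m.1 i : ℕ) : ℝ) ^ (k i))⁻¹}

/-- `ζ(3)` -/
noncomputable def zeta3 : ℝ := ∑' n : ℕ, (1 : ℝ) / ((n : ℝ) + 1) ^ 3

/-- Either the dimensions of the homogeneous parts of the algebra of multiple zeta values tend to
infinity, or the algebra is, up to finitely many weights, `K[π², ζ(3)]` for a real number field
`K` containing `(ζ(3)/π³)²`. -/
theorem result :
    Tendsto (fun n => Module.finrank ℚ (Z n)) atTop atTop ∨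
    ∃ K : IntermediateField ℚ ℝ, Module.Finite ℚ K ∧ (zeta3 / Real.pi ^ 3) ^ 2 ∈ K ∧
      (∀ n, ∀ z ∈ Z n, (z / Real.pi ^ n) ^ 2 ∈ K) ∧
      ∃ N : ℕ, ∀ m, N ≤ m →
        (∀ x : ℝ, x ∈ Z (2 * m) ↔ ∃ κ ∈ K, x = κ * Real.pi ^ (2 * m)) ∧
        (∀ x : ℝ, x ∈ Z (2 * m + 3) ↔ ∃ κ ∈ K, x = κ * (zeta3 * Real.pi ^ (2 * m))) := by
  rcases Pool.Agent.H447R2.MZ.tendsto_or_bounded with h3 | ⟨b, hb⟩
  · exact Or.inl h3
  · right
    obtain ⟨K, hK, h1, h2, N, h4, h5, _⟩ := Pool.Agent.H447R2.MZ.bounded_structure b hb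
    exact ⟨K, hK, h1, h2, N, fun m hm => ⟨h4 m hm, h5 m hm⟩⟩

end Pool.Agent.Results.MP_f3dc73_nt.BoundedStructure
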